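import Pool.Agent.Helper4.PMT.H

set_option autoImplicit false
open MvPolynomial TensorProduct

namespace Pool.Agent.Results.MP_4c5a19_co.TopDegree

/-- The polynomial ring `R` in the variables `x_ij`, `i, j < n`. -/
abbrev Poly (n : ℕ) := MvPolynomial (Fin n × Fin n) ℂ

/-- The permutation matrix of `w`, as a point of `ℂ^(n × n)`. -/
def permPoint (n : ℕ) (w : Equiv.Perm (Fin n)) : Fin n × Fin n → ℂ :=
  fun p => if w p.1 = p.2 then (1 : ℂ) else 0

/-- The ideal `I_n = gr I(P_n)`: the ideal generated by the homogeneous components of highest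
degree of the polynomials that vanish at all `n × n` permutation matrices. -/
noncomputable def topIdeal (n : ℕ) : Ideal (Poly n) :=
  Ideal.span {g : Poly n | ∃ f : Poly n, (∀ w, MvPolynomial.eval (permPoint n w) f = 0) ∧
    g = MvPolynomial.homogeneousComponent f.totalDegree f}

/-- The subspace of the homogeneous polynomials of degree `d`. -/
noncomputable abbrev homPoly (n d : ℕ) : Submodule ℂ (Poly n) :=
  homogeneousSubmodule (Fin n × Fin n) ℂ d

/-- The polynomials of degree `d` that lie in `I_n`, as a subspace of the homogeneous polynomials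
of degree `d`. -/
noncomputable def topPart (n d : ℕ) : Submodule ℂ (homPoly n d) :=
  ((topIdeal n).restrictScalars ℂ).comap (homPoly n d).subtype

/-- The graded piece `(R/I_n)_d`. -/
def Piece (n d : ℕ) : Type := homPoly n d ⧸ topPart n d

/-- The additive group of the quotient space `(R/I_n)_d`. -/
noncomputable instance instAddCommGroupPiece (n d : ℕ) : AddCommGroup (Piece n d) :=
  Submodule.Quotient.addCommGroup (topPart n d)

/-- The vector space structure of the quotient space `(R/I_n)_d`. -/
noncomputable instance instModulePiece (n d : ℕ) : Module ℂ (Piece n d) :=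
  Submodule.Quotient.module (topPart n d)

/-- The substitution `x_ij ↦ x_{w(i), v(j)}` on the homogeneous polynomials of degree `d`. -/
noncomputable def actPoly (n d : ℕ) (g : Equiv.Perm (Fin n) × Equiv.Perm (Fin n)) :
    homPoly n d →ₗ[ℂ] homPoly n d :=
  ((MvPolynomial.rename (Prod.map ⇑g.1 ⇑g.2)).toLinearMap).restrict fun _ hx =>
    (mem_homogeneousSubmodule _ _).2 ((mem_homogeneousSubmodule _ _).1 hx).rename_isHomogeneous

lemma rename_topIdeal {n : ℕ} (g : Equiv.Perm (Fin n) × Equiv.Perm (Fin n)) {x : Poly n}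
    (hx : x ∈ topIdeal n) : MvPolynomial.rename (Prod.map ⇑g.1 ⇑g.2) x ∈ topIdeal n := by
  unfold topIdeal at hx
  refine Submodule.span_induction (p := fun x _ =>
    MvPolynomial.rename (Prod.map ⇑g.1 ⇑g.2) x ∈ topIdeal n) ?_ ?_ ?_ ?_ hx
  · rintro x ⟨f, hf, rfl⟩
    refine Ideal.subset_span ⟨MvPolynomial.rename (Prod.map ⇑g.1 ⇑g.2) f, ?_, ?_⟩
    · intro w
      rw [eval_rename]
      have h1 : permPoint n w ∘ Prod.map ⇑g.1 ⇑g.2 = permPoint n (g.2⁻¹ * w * g.1) := by
        funext p
        unfold permPoint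
        simp only [Function.comp_apply, Prod.map_fst, Prod.map_snd, Equiv.Perm.mul_apply]
        congr 1
        rw [Equiv.Perm.inv_eq_iff_eq]
      rw [h1]
      exact hf _
    · have h2 : (MvPolynomial.rename (Prod.map ⇑g.1 ⇑g.2) f).totalDegree = f.totalDegree :=
        totalDegree_renameEquiv (Equiv.prodCongr g.1 g.2) f
      rw [h2, rename_homogeneousComponent]
  · rw [map_zero]
    exact zero_mem _
  · intro x y _ _ hx hy
    rw [map_add]
    exact add_mem hx hy
  · intro a x _ hx
    rw [smul_eq_mul, map_mul]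
    exact Ideal.mul_mem_left _ _ hx

/-- The action of `g = (w, v)` on `(R/I_n)_d`, induced by `x_ij ↦ x_{w(i), v(j)}`. -/
noncomputable def act (n d : ℕ) (g : Equiv.Perm (Fin n) × Equiv.Perm (Fin n)) :
    Piece n d →ₗ[ℂ] Piece n d :=
  Submodule.mapQ (topPart n d) (topPart n d) (actPoly n d g) fun _ hx => rename_topIdeal g hx

/-- The tensor product `(R/I_n)_a ⊗ (R/I_n)_b` over `ℂ`. -/
def Ten (n a b : ℕ) : Type := Piece n a ⊗[ℂ] Piece n b

/-- The additive group of the tensor product. -/
noncomputable instance instAddCommGroupTen (n a b : ℕ) : AddCommGroup (Ten n a b) :=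
  TensorProduct.addCommGroup

/-- The vector space structure of the tensor product. -/
noncomputable instance instModuleTen (n a b : ℕ) : Module ℂ (Ten n a b) :=
  TensorProduct.leftModule

/-- The diagonal action `f ⊗ h ↦ (g • f) ⊗ (g • h)` of `g = (w, v)` on
`(R/I_n)_a ⊗ (R/I_n)_b`. -/
noncomputable def diagAct (n a b : ℕ) (g : Equiv.Perm (Fin n) × Equiv.Perm (Fin n)) :
    Ten n a b →ₗ[ℂ] Ten n a b :=
  TensorProduct.map (act n a g) (act n b g)

/-- There is an injective linear map `(R/I_n)_a ⊗ (R/I_n)_b → (R/I_n)_c ⊗ (R/I_n)_e` that commutes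
with the diagonal action of all `g = (w, v)`. -/
def Embeds (n a b c e : ℕ) : Prop :=
  ∃ φ : Ten n a b →ₗ[ℂ] Ten n c e, Function.Injective φ ∧
    ∀ g x, φ (diagAct n a b g x) = diagAct n c e g (φ x)

/-- The inequalities that contain the top degree `n - 1` of `R/I_n`: for `1 ≤ c, e` and
`c + e - 1 ≤ b ≤ c * e`, `b ≤ n` there is an `S_n × S_n`-equivariant injection
`(R/I_n)_{n-1} ⊗ (R/I_n)_{n-b} → (R/I_n)_{n-c} ⊗ (R/I_n)_{n-e}`.
(For `b = c + e - 1` these are all inequalities of strong equivariant log-concavity in which the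
larger index is `n - 1`; `c = e = 2`, `b = 3` is Q1 for `d = n - 2`, for all `n ≥ 3`.) -/
theorem result (n b c e : ℕ) (hc : 1 ≤ c) (he : 1 ≤ e) (h1 : c + e ≤ b + 1) (h2 : b ≤ c * e)
    (hn : b ≤ n) : Embeds n (n - 1) (n - b) (n - c) (n - e) := by
  have h := Pool.Agent.Helper4.PMT.topGen (n := n) (ρ := fun d g => act n d g) ?_ hc he h1 h2
    (dt := n - 1) (db := n - b) (dc := n - c) (de := n - e)
    (by omega) (by omega) (by omega) (by omega)
  · obtain ⟨φ, h3, h4⟩ := h
    exact ⟨φ, h3, fun g x => LinearMap.congr_fun (h4 g) x⟩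
  · intro d g x y hxy
    change Submodule.Quotient.mk (actPoly n d g x) = _
    congr 1
    exact Subtype.ext hxy.symm

end Pool.Agent.Results.MP_4c5a19_co.TopDegree
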